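import Pool.Agent.V11321.HPD.Lln

/-!
Almost sure convergence.
-/

set_option autoImplicit false

namespace Pool.Agent.V11321.HPD

open MeasureTheory Filter Topology H731B
open Pool.Agent.V11321.HPL (Om sh eqv_st st)

theorem geo {E : Set Om} (hEm : MeasurableSet E) (hE : ClEv E) {c : ℝ} (hc : 1 < c) :
    ∀ᵐ ω ∂percH, Tendsto (fun j : ℕ => S E ⌊c ^ j⌋₊ ω / (⌊c ^ j⌋₊ : ℝ)) atTop
      (𝓝 (percH.real E)) := by
  obtain ⟨δ, hδ, hesc⟩ := esc_poly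
  obtain ⟨b, hb⟩ : ∃ b, b = Real.sqrt c := ⟨_, rfl⟩
  have hb2 : b ^ 2 = c := by rw [hb, Real.sq_sqrt (by linarith)]
  have hb1 : 1 < b := by
    rw [hb, Real.lt_sqrt (by norm_num)]
    linarith
  have hb0 : 0 < b := by linarith
  have hd1 : b ^ (-δ) < 1 := Real.rpow_lt_one_of_one_lt_of_neg hb1 (by linarith)
  have hd0 : 0 < b ^ (-δ) := Real.rpow_pos_of_pos hb0 _
  have hsum : Summable (fun j : ℕ => 6 * (b⁻¹) ^ j + 2 * (54:ℝ) ^ δ * (b ^ (-δ)) ^ j) :=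
    ((summable_geometric_of_lt_one (by positivity) (inv_lt_one_of_one_lt₀ hb1)).mul_left 6).add
      ((summable_geometric_of_lt_one hd0.le hd1).mul_left _)
  have hbd : ∀ j : ℕ, ∫ ω, (S E ⌊c ^ j⌋₊ ω / (⌊c ^ j⌋₊ : ℝ) - percH.real E) ^ 2 ∂percH ≤
      6 * (b⁻¹) ^ j + 2 * (54:ℝ) ^ δ * (b ^ (-δ)) ^ j := by
    intro j
    have h1 : 1 ≤ c ^ j := one_le_pow₀ hc.le
    have h2 : c ^ j / 2 < ⌊c ^ j⌋₊ := Nat.div_two_lt_floor h1
    have h3 : 0 < ⌊c ^ j⌋₊ := Nat.floor_pos.2 h1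
    have h4 : 1 ≤ b ^ j := one_le_pow₀ hb1.le
    refine (second' hEm hE ⌊c ^ j⌋₊ ⌊b ^ j⌋₊ h3).trans (add_le_add ?_ ?_)
    · have h5 : (⌊b ^ j⌋₊ : ℝ) ≤ b ^ j := Nat.floor_le (by positivity)
      have h6 : c ^ j = b ^ j * b ^ j := by rw [← hb2, ← pow_mul, ← pow_add]; congr 1; ring
      rw [div_le_iff₀ (by exact_mod_cast h3), inv_pow]
      have h7 : 6 * (b ^ j)⁻¹ * (c ^ j / 2) ≤ 6 * (b ^ j)⁻¹ * (⌊c ^ j⌋₊ : ℝ) :=
        mul_le_mul_of_nonneg_left h2.le (by positivity)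
      refine le_trans ?_ h7
      rw [h6]
      have h8 : 6 * (b ^ j)⁻¹ * (b ^ j * b ^ j / 2) = 3 * b ^ j := by
        have : b ^ j ≠ 0 := by positivity
        field_simp
        norm_num
      rw [h8]
      linarith
    · have h5 : b ^ j ≤ (⌊b ^ j⌋₊ : ℝ) + 1 := (Nat.lt_floor_add_one _).le
      have h6 := hesc ⌊b ^ j⌋₊
      have h7 : (((⌊b ^ j⌋₊ : ℝ) + 1) / 54) ^ (-δ) ≤ (b ^ j / 54) ^ (-δ) :=
        Real.rpow_le_rpow_of_nonpos (by positivity) (by gcongr) (by linarith)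
      have h8 : (b ^ j / 54) ^ (-δ) = (54:ℝ) ^ δ * (b ^ (-δ)) ^ j := by
        rw [Real.div_rpow (by positivity) (by norm_num), Real.rpow_neg (by norm_num : (0:ℝ) ≤ 54),
          div_inv_eq_mul, mul_comm, ← Real.rpow_natCast, ← Real.rpow_natCast,
          ← Real.rpow_mul hb0.le, ← Real.rpow_mul hb0.le]
        congr 2
        ring
      rw [h8] at h7
      linarith
  have hfin : ∫⁻ ω, ∑' j : ℕ, ENNReal.ofReal ((S E ⌊c ^ j⌋₊ ω / (⌊c ^ j⌋₊ : ℝ) -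
      percH.real E) ^ 2) ∂percH ≠ ⊤ := by
    rw [lintegral_tsum fun j => ?_]
    · have h1 : ∀ j : ℕ, ∫⁻ ω, ENNReal.ofReal ((S E ⌊c ^ j⌋₊ ω / (⌊c ^ j⌋₊ : ℝ) -
          percH.real E) ^ 2) ∂percH ≤
          ENNReal.ofReal (6 * (b⁻¹) ^ j + 2 * (54:ℝ) ^ δ * (b ^ (-δ)) ^ j) := by
        intro j
        rw [← ofReal_integral_eq_lintegral_ofReal (avg_integrable hEm _)
          (ae_of_all _ fun ω => sq_nonneg _)]
        exact ENNReal.ofReal_le_ofReal (hbd j)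
      refine ne_top_of_le_ne_top ?_ (ENNReal.tsum_le_tsum h1)
      rw [← ENNReal.ofReal_tsum_of_nonneg (fun j => by positivity) hsum]
      exact ENNReal.ofReal_ne_top
    · exact ((((S_meas hEm _).div_const _).sub_const _).pow_const 2).ennreal_ofReal.aemeasurable
  have hmeas : Measurable (fun ω => ∑' j : ℕ, ENNReal.ofReal ((S E ⌊c ^ j⌋₊ ω / (⌊c ^ j⌋₊ : ℝ) -
      percH.real E) ^ 2)) :=
    Measurable.ennreal_tsum fun j =>
      ((((S_meas hEm _).div_const _).sub_const _).pow_const 2).ennreal_ofReal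
  filter_upwards [ae_lt_top hmeas hfin] with ω hω
  have h1 := ENNReal.tendsto_atTop_zero_of_tsum_ne_top hω.ne
  have h2 : Tendsto (fun j : ℕ => (S E ⌊c ^ j⌋₊ ω / (⌊c ^ j⌋₊ : ℝ) - percH.real E) ^ 2) atTop
      (𝓝 0) := by
    have h3 := (ENNReal.tendsto_toReal ENNReal.zero_ne_top).comp h1
    rw [ENNReal.toReal_zero] at h3
    refine h3.congr fun j => ?_
    simp only [Function.comp_apply]
    exact ENNReal.toReal_ofReal (sq_nonneg _)
  have h4 : Tendsto (fun j : ℕ => |S E ⌊c ^ j⌋₊ ω / (⌊c ^ j⌋₊ : ℝ) - percH.real E|) atTop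
      (𝓝 0) := by
    have h5 := (Real.continuous_sqrt.tendsto 0).comp h2
    rw [Real.sqrt_zero] at h5
    refine h5.congr fun j => ?_
    simp only [Function.comp_apply]
    exact Real.sqrt_sq_eq_abs _
  have h6 := (tendsto_zero_iff_abs_tendsto_zero _).2 h4
  have h7 := h6.add_const (percH.real E)
  rw [zero_add] at h7
  refine h7.congr fun j => ?_
  ring

/-- **the strong law** -/
theorem slln {E : Set Om} (hEm : MeasurableSet E) (hE : ClEv E) :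
    ∀ᵐ ω ∂percH, Tendsto (fun n : ℕ => S E n ω / (n : ℝ)) atTop (𝓝 (percH.real E)) := by
  have h : ∀ᵐ ω ∂percH, ∀ k : ℕ, Tendsto (fun j : ℕ => S E ⌊(1 + 1 / ((k:ℝ) + 1)) ^ j⌋₊ ω /
      (⌊(1 + 1 / ((k:ℝ) + 1)) ^ j⌋₊ : ℝ)) atTop (𝓝 (percH.real E)) := by
    rw [ae_all_iff]
    intro k
    refine geo hEm hE ?_
    have : 0 < 1 / ((k:ℝ) + 1) := by positivity
    linarith
  filter_upwards [h] with ω hω
  refine tendsto_div_of_monotone_of_tendsto_div_floor_pow (fun n => S E n ω) _ (S_mono E ω)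
    (fun k : ℕ => 1 + 1 / ((k:ℝ) + 1)) (fun k => ?_) ?_ hω
  · have : 0 < 1 / ((k:ℝ) + 1) := by positivity
    linarith
  · have := (tendsto_one_div_add_atTop_nhds_zero_nat (𝕜 := ℝ)).const_add 1
    rw [add_zero] at this
    exact this

end Pool.Agent.V11321.HPD
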