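import Pool.Agent.V11321.HPD.As

/-!
Counting the clusters along the boundary of the half-plane.
-/

set_option autoImplicit false

namespace Pool.Agent.V11321.HPD

open MeasureTheory Filter Topology H731B
open Pool.Agent.V11321.HPL (Om sh eqv_st st prt)

/-- the boundary vertices of the cluster of `(d, 0)` -/
def bclA (ω : Om) (d : ℤ) : Set ℤ := {b | Relation.EqvGen (OpenAdjH ω) (d, 0) (b, 0)}

theorem bclA_self (ω : Om) (d : ℤ) : d ∈ bclA ω d := Relation.EqvGen.refl _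

theorem bclA_eq {ω : Om} {d e : ℤ} (h : e ∈ bclA ω d) : bclA ω e = bclA ω d := by
  ext b
  constructor
  · intro hb
    exact Relation.EqvGen.trans _ _ _ h hb
  · intro hb
    exact Relation.EqvGen.trans _ _ _ (Relation.EqvGen.symm _ _ h) hb

theorem even_bclA {ω : Om} {d e : ℤ} (hd : Even d) (h : e ∈ bclA ω d) : Even e := by
  have := Pool.Agent.V11321.HPL.parity ω h
  simp only [Nat.cast_zero, add_zero] at this
  exact this.1 hd

theorem sh_iff {d : ℤ} (hd : Even d) (ω : Om) (b : ℤ) :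
    b ∈ bclH (sh d ω) ↔ b + d ∈ bclA ω d := by
  constructor
  · intro hb
    have h1 := Pool.Agent.V11321.HPL.eqv_map (fun p : ℤ × ℕ => (p.1 + d, p.2))
      (fun p r h => Pool.Agent.V11321.HPL.adj_sh hd ω h) hb
    simp only [zero_add] at h1
    exact h1
  · intro hb
    have h1 := Pool.Agent.V11321.HPL.eqv_map (fun p : ℤ × ℕ => (p.1 - d, p.2))
      (fun p r h => Pool.Agent.V11321.HPL.adj_sh' hd ω h) hb
    simp only [sub_self, add_sub_cancel_right] at h1
    exact h1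

theorem encard_left {d : ℤ} (hd : Even d) (ω : Om) :
    (prt {b | b < 0} (sh d ω)).encard = (bclA ω d ∩ {b | b < d}).encard := by
  have : bclA ω d ∩ {b | b < d} = (fun b => b + d) '' (prt {b | b < 0} (sh d ω)) := by
    ext b
    simp only [prt, Set.mem_inter_iff, Set.mem_setOf_eq, Set.mem_image, sh_iff hd]
    constructor
    · rintro ⟨h1, h2⟩
      exact ⟨b - d, ⟨by simpa using h1, by linarith⟩, by ring⟩
    · rintro ⟨c, ⟨h1, h2⟩, rfl⟩
      exact ⟨h1, by linarith⟩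
  rw [this, (add_left_injective d).encard_image]

theorem encard_right {d : ℤ} (hd : Even d) (ω : Om) :
    (prt {b | 0 < b} (sh d ω)).encard = (bclA ω d ∩ {b | d < b}).encard := by
  have : bclA ω d ∩ {b | d < b} = (fun b => b + d) '' (prt {b | 0 < b} (sh d ω)) := by
    ext b
    simp only [prt, Set.mem_inter_iff, Set.mem_setOf_eq, Set.mem_image, sh_iff hd]
    constructor
    · rintro ⟨h1, h2⟩
      exact ⟨b - d, ⟨by simpa using h1, by linarith⟩, by ring⟩
    · rintro ⟨c, ⟨h1, h2⟩, rfl⟩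
      exact ⟨h1, by linarith⟩
  rw [this, (add_left_injective d).encard_image]

theorem encard_all {d : ℤ} (hd : Even d) (ω : Om) :
    (bclH (sh d ω)).encard = (bclA ω d).encard := by
  have : bclA ω d = (fun b => b + d) '' (bclH (sh d ω)) := by
    ext b
    simp only [Set.mem_image, sh_iff hd]
    constructor
    · intro h1
      exact ⟨b - d, by simpa using h1, by ring⟩
    · rintro ⟨c, h1, rfl⟩
      exact h1
  rw [this, (add_left_injective d).encard_image]

theorem bclH_of_Cl {ω ω' : Om} (h : Cl ω = Cl ω') : bclH ω = bclH ω' := by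
  ext b
  exact ⟨fun hb => (h ▸ hb : ((b, 0) : ℤ × ℕ) ∈ Cl ω'), fun hb => (h ▸ hb : ((b, 0) : ℤ × ℕ) ∈ Cl ω)⟩

/-- exactly `i` on the left and exactly `j` on the right -/
def EE (i j : ℕ) : Set Om :=
  {ω | (prt {b | b < 0} ω).encard = i ∧ (prt {b | 0 < b} ω).encard = j}

/-- leftmost -/
def LE : Set Om := {ω | prt {b | b < 0} ω = ∅}

/-- the next vertex on the left is far -/
def GG (R : ℕ) : Set Om := {ω | (∃ b < 0, b ∈ bclH ω) ∧ ∀ b < 0, b ∈ bclH ω → b < -(2 * (R:ℤ))}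

theorem cl_of {E : Set Om} (h : ∀ ω ω' : Om, bclH ω = bclH ω' → (ω ∈ E → ω' ∈ E)) : ClEv E := by
  intro ω ω' hC
  exact ⟨h ω ω' (bclH_of_Cl hC), h ω' ω (bclH_of_Cl hC).symm⟩

theorem cl_EE (i j : ℕ) : ClEv (EE i j) := by
  refine cl_of fun ω ω' h hE => ?_
  unfold EE prt at *
  simp only [Set.mem_setOf_eq] at *
  rw [← h]
  exact hE

theorem cl_LE : ClEv LE := by
  refine cl_of fun ω ω' h hE => ?_
  unfold LE prt at *
  simp only [Set.mem_setOf_eq] at *
  rw [← h]
  exact hE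

theorem cl_GG (R : ℕ) : ClEv (GG R) := by
  refine cl_of fun ω ω' h hE => ?_
  unfold GG at *
  simp only [Set.mem_setOf_eq] at *
  rw [← h]
  exact hE

theorem meas_exact (T : Set ℤ) (i : ℕ) : MeasurableSet {ω : Om | (prt T ω).encard = i} := by
  have : {ω : Om | (prt T ω).encard = i} = {ω : Om | (i : ℕ∞) ≤ (prt T ω).encard} ∩
      {ω : Om | ((i + 1 : ℕ) : ℕ∞) ≤ (prt T ω).encard}ᶜ := by
    ext ω
    simp only [Set.mem_setOf_eq, Set.mem_inter_iff, Set.mem_compl_iff]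
    exact Pool.Agent.V11321.HPL.exact_iff _ _
  rw [this]
  exact (Pool.Agent.V11321.HPL.meas_prt _ _).inter (Pool.Agent.V11321.HPL.meas_prt _ _).compl

theorem meas_EE (i j : ℕ) : MeasurableSet (EE i j) := (meas_exact _ i).inter (meas_exact _ j)

theorem LE_eq : LE = {ω | (prt {b | b < 0} ω).encard = (0 : ℕ)} := by
  ext ω
  simp [LE, Set.encard_eq_zero]

theorem meas_LE : MeasurableSet LE := by
  rw [LE_eq]
  exact meas_exact _ 0

theorem meas_GG (R : ℕ) : MeasurableSet (GG R) := by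
  have : GG R = (⋃ b : ℤ, ⋃ _ : b < 0, {ω : Om | b ∈ bclH ω}) ∩
      ⋂ b : ℤ, ⋂ _ : b < 0, ⋂ _ : ¬ b < -(2 * (R:ℤ)), {ω : Om | b ∈ bclH ω}ᶜ := by
    ext ω
    simp only [GG, Set.mem_setOf_eq, Set.mem_inter_iff, Set.mem_iUnion, Set.mem_iInter,
      Set.mem_compl_iff, exists_prop]
    refine and_congr_right fun _ => ?_
    constructor
    · intro h b hb hb2 hb3
      exact hb2 (h b hb hb3)
    · intro h b hb hb3
      by_contra hb2
      exact h b hb hb2 hb3
  rw [this]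
  exact (MeasurableSet.iUnion fun b => MeasurableSet.iUnion fun _ =>
    Pool.Agent.V11321.HPL.meas_mem b).inter (MeasurableSet.iInter fun b =>
    MeasurableSet.iInter fun _ => MeasurableSet.iInter fun _ =>
    (Pool.Agent.V11321.HPL.meas_mem b).compl)

theorem prob_LE : percH.real LE = 1 / 2 := by
  have h1 : LE = (Pool.Agent.V11321.HPL.TT 1 0)ᶜ := by
    ext ω
    simp only [LE, Pool.Agent.V11321.HPL.TT, Set.mem_setOf_eq, Set.mem_compl_iff, Nat.cast_one,
      Nat.cast_zero, zero_le, and_true, Set.one_le_encard_iff_nonempty,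
      Set.not_nonempty_iff_eq_empty]
  rw [h1, probReal_compl_eq_one_sub (Pool.Agent.V11321.HPL.meas_TT 1 0),
    Pool.Agent.V11321.HPL.joint]
  norm_num [Nat.choose]

theorem prob_GG : Tendsto (fun R : ℕ => percH.real (GG R)) atTop (𝓝 0) := by
  have hanti : Antitone GG := by
    intro R R' h ω hω
    refine ⟨hω.1, fun b hb hb2 => ?_⟩
    have h1 := hω.2 b hb hb2
    have h2 : (R : ℤ) ≤ R' := by exact_mod_cast h
    linarith
  have hem : ⋂ R, GG R = ∅ := by
    ext ω
    simp only [Set.mem_iInter, Set.mem_empty_iff_false, iff_false]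
    intro h
    obtain ⟨b, hb, hb2⟩ := (h 0).1
    have h3 := (h b.natAbs).2 b hb hb2
    have h4 : (b.natAbs : ℤ) = -b := by omega
    rw [h4] at h3
    linarith
  have h := tendsto_measure_iInter_atTop (μ := percH) (fun R => (meas_GG R).nullMeasurableSet)
    hanti ⟨0, measure_ne_top _ _⟩
  rw [hem, measure_empty] at h
  have h2 := (ENNReal.tendsto_toReal ENNReal.zero_ne_top).comp h
  rw [ENNReal.toReal_zero] at h2
  exact h2

theorem S_card (E : Set Om) (n : ℕ) (ω : Om) :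
    S E n ω = ({m : ℕ | m < n ∧ sh (2 * (m:ℤ)) ω ∈ E}.ncard : ℝ) := by
  classical
  unfold S X
  have : {m : ℕ | m < n ∧ sh (2 * (m:ℤ)) ω ∈ E} =
      ((Finset.range n).filter (fun m : ℕ => sh (2 * (m:ℤ)) ω ∈ E) : Set ℕ) := by
    ext m
    simp
  rw [this, Set.ncard_coe_finset, Finset.card_filter]
  push_cast
  refine Finset.sum_congr rfl fun m _ => ?_
  by_cases h : sh (2 * (m:ℤ)) ω ∈ E
  · rw [Set.indicator_of_mem (show ω ∈ sh (2 * (m:ℤ)) ⁻¹' E from h), if_pos h]
  · rw [Set.indicator_of_notMem (show ω ∉ sh (2 * (m:ℤ)) ⁻¹' E from h), if_neg h]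

/-- the number of the clusters with the property `P` that meet the first `n` vertices -/
noncomputable def KK (P : Set ℤ → Prop) (n : ℕ) (ω : Om) : ℕ :=
  ((fun m : ℕ => bclA ω (2 * m)) '' {m | m < n ∧ P (bclA ω (2 * m))}).ncard

/-- the indices of the leftmost vertices -/
def LL (P : Set ℤ → Prop) (n : ℕ) (ω : Om) : Set ℕ :=
  {m | m < n ∧ P (bclA ω (2 * m)) ∧ bclA ω (2 * m) ∩ {b | b < 2 * m} = ∅}

theorem fin_lt (n : ℕ) (p : ℕ → Prop) : {m : ℕ | m < n ∧ p m}.Finite :=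
  (Set.finite_lt_nat n).subset fun _ h => h.1

theorem lower (P : Set ℤ → Prop) (n : ℕ) (ω : Om) : (LL P n ω).ncard ≤ KK P n ω := by
  have hinj : Set.InjOn (fun m : ℕ => bclA ω (2 * m)) (LL P n ω) := by
    intro m hm m' hm' h
    have h' : bclA ω (2 * m) = bclA ω (2 * m') := h
    have h1 : ¬ (2 * (m:ℤ) < 2 * m') := by
      intro h2
      have h3 : (2 * (m:ℤ)) ∈ bclA ω (2 * m') ∩ {b | b < 2 * (m':ℤ)} := ⟨h' ▸ bclA_self ω _, h2⟩
      rw [hm'.2.2] at h3
      exact h3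
    have h2 : ¬ (2 * (m':ℤ) < 2 * m) := by
      intro h2
      have h3 : (2 * (m':ℤ)) ∈ bclA ω (2 * m) ∩ {b | b < 2 * (m:ℤ)} := ⟨h' ▸ bclA_self ω _, h2⟩
      rw [hm.2.2] at h3
      exact h3
    omega
  unfold KK
  rw [← hinj.ncard_image]
  refine Set.ncard_le_ncard ?_ ((fin_lt n _).image _)
  exact Set.image_mono fun m hm => ⟨hm.1, hm.2.1⟩

theorem upper (P : Set ℤ → Prop) (n : ℕ) (ω : Om) (R : ℕ) :
    KK P n ω ≤ (LL P n ω).ncard + (R + {m : ℕ | m < n ∧ sh (2 * (m:ℤ)) ω ∈ GG R}.ncard) := by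
  classical
  have hsub : (fun m : ℕ => bclA ω (2 * m)) '' {m | m < n ∧ P (bclA ω (2 * m))} ⊆
      (fun m : ℕ => bclA ω (2 * m)) '' (LL P n ω ∪ ({m | m < R} ∪
        {m : ℕ | m < n ∧ sh (2 * (m:ℤ)) ω ∈ GG R})) := by
    rintro C ⟨m, ⟨hm, hP⟩, rfl⟩
    have hex : ∃ m' : ℕ, bclA ω (2 * (m':ℤ)) = bclA ω (2 * m) := ⟨m, rfl⟩
    obtain ⟨m', hm'⟩ : ∃ m' : ℕ, m' = Nat.find hex := ⟨_, rfl⟩
    have h1 : bclA ω (2 * (m':ℤ)) = bclA ω (2 * m) := hm' ▸ Nat.find_spec hex
    have h2 : m' ≤ m := hm' ▸ Nat.find_min' hex rfl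
    have h3 : ∀ b ∈ bclA ω (2 * (m':ℤ)), 0 ≤ b → 2 * (m':ℤ) ≤ b := by
      intro b hb hb0
      have hev : Even b := even_bclA ⟨m', by ring⟩ hb
      obtain ⟨c, hc⟩ := hev
      by_contra hlt
      have h4 : ((c.toNat : ℕ) : ℤ) = c := Int.toNat_of_nonneg (by omega)
      have h5 : bclA ω (2 * ((c.toNat : ℕ) : ℤ)) = bclA ω (2 * m) := by
        rw [h4, show 2 * c = b by omega, bclA_eq hb, h1]
      have h6 : Nat.find hex ≤ c.toNat := Nat.find_min' hex h5
      rw [← hm'] at h6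
      omega
    refine ⟨m', ?_, h1⟩
    by_cases hl : bclA ω (2 * (m':ℤ)) ∩ {b | b < 2 * (m':ℤ)} = ∅
    · exact Or.inl ⟨by omega, by rw [h1]; exact hP, hl⟩
    · refine Or.inr ?_
      by_cases hR : m' < R
      · exact Or.inl hR
      · refine Or.inr ⟨by omega, ?_⟩
        obtain ⟨b, hb, hb2⟩ := Set.nonempty_iff_ne_empty.2 hl
        have hev : Even (2 * (m':ℤ)) := ⟨m', by ring⟩
        refine ⟨⟨b - 2 * m', ?_, ?_⟩, fun x hx hx2 => ?_⟩
        · have : b < 2 * (m':ℤ) := hb2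
          linarith
        · rw [sh_iff hev, sub_add_cancel]
          exact hb
        · rw [sh_iff hev] at hx2
          by_contra hx3
          have h4 := h3 _ hx2 (by omega)
          omega
  unfold KK
  refine (Set.ncard_le_ncard hsub ?_).trans ((Set.ncard_image_le ?_).trans ?_)
  · exact (((fin_lt n _).union ((Set.finite_lt_nat R).union (fin_lt n _)))).image _
  · exact ((fin_lt n _).union ((Set.finite_lt_nat R).union (fin_lt n _)))
  · refine (Set.ncard_union_le _ _).trans (add_le_add le_rfl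
      ((Set.ncard_union_le _ _).trans (add_le_add ?_ le_rfl)))
    have : {m : ℕ | m < R} = (Finset.range R : Set ℕ) := by
      ext m
      simp
    rw [this, Set.ncard_coe_finset, Finset.card_range]

end Pool.Agent.V11321.HPD
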