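import Pool.Agent.V11321.HPD.Cnt
import Mathlib.Combinatorics.Enumerative.Catalan.Basic

/-!
The strong laws with the exact densities.
-/

set_option autoImplicit false

namespace Pool.Agent.V11321.HPD

open MeasureTheory Filter Topology H731B
open Pool.Agent.V11321.HPL (Om sh eqv_st st prt TT cb)

theorem conv (P : Set ℤ → Prop) {E : Set Om} (hEm : MeasurableSet E) (hE : ClEv E)
    (hPE : ∀ (m : ℕ) (ω : Om), sh (2 * (m:ℤ)) ω ∈ E ↔
      P (bclA ω (2 * m)) ∧ bclA ω (2 * m) ∩ {b | b < 2 * m} = ∅) :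
    ∀ᵐ ω ∂percH, Tendsto (fun n : ℕ => (KK P n ω : ℝ) / n) atTop (𝓝 (percH.real E)) := by
  have hG : ∀ᵐ ω ∂percH, ∀ R : ℕ, Tendsto (fun n : ℕ => S (GG R) n ω / (n : ℝ)) atTop
      (𝓝 (percH.real (GG R))) := by
    rw [ae_all_iff]
    exact fun R => slln (meas_GG R) (cl_GG R)
  filter_upwards [slln hEm hE, hG] with ω h1 h2
  have hLL : ∀ n : ℕ, ((LL P n ω).ncard : ℝ) = S E n ω := by
    intro n
    rw [S_card]
    congr 2
    ext m
    simp only [LL, Set.mem_setOf_eq, hPE]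
  rw [tendsto_order]
  constructor
  · intro a ha
    filter_upwards [(tendsto_order.1 h1).1 a ha, eventually_gt_atTop 0] with n hn hn0
    refine hn.trans_le ?_
    have hn' : (0:ℝ) < n := by exact_mod_cast hn0
    refine div_le_div_of_nonneg_right ?_ hn'.le
    rw [← hLL]
    exact_mod_cast lower P n ω
  · intro a ha
    obtain ⟨R, hR⟩ := ((tendsto_order.1 prob_GG).2 (a - percH.real E) (by linarith)).exists
    have h3 : Tendsto (fun n : ℕ => S E n ω / (n:ℝ) + ((R:ℝ) / n + S (GG R) n ω / (n : ℝ))) atTop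
        (𝓝 (percH.real E + (0 + percH.real (GG R)))) :=
      h1.add ((tendsto_const_div_atTop_nhds_zero_nat (R:ℝ)).add (h2 R))
    filter_upwards [(tendsto_order.1 h3).2 a (by linarith), eventually_gt_atTop 0] with n hn hn0
    refine lt_of_le_of_lt ?_ hn
    have hn' : (0:ℝ) < n := by exact_mod_cast hn0
    rw [← add_div, ← add_div]
    refine div_le_div_of_nonneg_right ?_ hn'.le
    rw [← hLL, S_card]
    exact_mod_cast upper P n ω R

/-- leftmost, more than `k` boundary vertices in the cluster -/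
def TL (k : ℕ) : Set Om := TT 0 k \ TT 1 k

theorem mem_TT (i j : ℕ) (ω : Om) : ω ∈ TT i j ↔
    (i : ℕ∞) ≤ (prt {b | b < 0} ω).encard ∧ (j : ℕ∞) ≤ (prt {b | 0 < b} ω).encard := Iff.rfl

theorem mem_TL (k : ℕ) (ω : Om) : ω ∈ TL k ↔
    (k : ℕ∞) ≤ (prt {b | 0 < b} ω).encard ∧ prt {b | b < 0} ω = ∅ := by
  unfold TL
  simp only [Set.mem_diff, mem_TT, Nat.cast_zero, zero_le, true_and, Nat.cast_one,
    Set.one_le_encard_iff_nonempty]
  constructor
  · rintro ⟨h1, h2⟩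
    refine ⟨h1, ?_⟩
    by_contra h3
    exact h2 ⟨Set.nonempty_iff_ne_empty.2 h3, h1⟩
  · rintro ⟨h1, h2⟩
    refine ⟨h1, ?_⟩
    rintro ⟨h3, _⟩
    exact h3.ne_empty h2

theorem cl_TL (k : ℕ) : ClEv (TL k) := by
  refine cl_of fun ω ω' h hE => ?_
  rw [mem_TL] at *
  unfold prt at *
  rw [← h]
  exact hE

theorem meas_TL (k : ℕ) : MeasurableSet (TL k) :=
  (Pool.Agent.V11321.HPL.meas_TT 0 k).diff (Pool.Agent.V11321.HPL.meas_TT 1 k)

theorem cb_cat (k : ℕ) : cb k = (k + 1) * (catalan k : ℝ) / 4 ^ k := by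
  have h := succ_mul_catalan_eq_centralBinom k
  unfold cb
  rw [← Nat.centralBinom_eq_two_mul_choose, ← h]
  push_cast
  ring

theorem prob_TL (k : ℕ) : percH.real (TL k) = (catalan k : ℝ) / (2 * 4 ^ k) := by
  have hsub : TT 1 k ⊆ TT 0 k := by
    intro ω h
    exact ⟨by simp, h.2⟩
  unfold TL
  rw [measureReal_diff hsub (Pool.Agent.V11321.HPL.meas_TT 1 k), Pool.Agent.V11321.HPL.joint,
    Pool.Agent.V11321.HPL.joint, zero_add, add_comm 1 k]
  have h1 : ((2 * k).choose k : ℝ) / 4 ^ k = cb k := rfl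
  have h2 : ((2 * (k + 1)).choose (k + 1) : ℝ) / 4 ^ (k + 1) = cb (k + 1) := rfl
  rw [h1, h2]
  have h3 := Pool.Agent.V11321.HPL.cb_succ k
  have h4 : (2 * (k:ℝ) + 2) ≠ 0 := by positivity
  have h5 : cb (k + 1) = cb k * (2 * k + 1) / (2 * k + 2) := by
    rw [eq_div_iff h4]; exact h3
  rw [h5, cb_cat]
  have h6 : ((4:ℝ) ^ k) ≠ 0 := by positivity
  field_simp
  ring

theorem TL_iff (k m : ℕ) (ω : Om) : sh (2 * (m:ℤ)) ω ∈ TL k ↔
    (k : ℕ∞) < (bclA ω (2 * m)).encard ∧ bclA ω (2 * m) ∩ {b | b < 2 * m} = ∅ := by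
  have hev : Even (2 * (m:ℤ)) := ⟨m, by ring⟩
  rw [mem_TL, ← Set.encard_eq_zero, encard_left hev, Set.encard_eq_zero, encard_right hev]
  refine and_congr_left fun h => ?_
  have h1 := Pool.Agent.V11321.HPL.split (sh (2 * (m:ℤ)) ω)
  rw [encard_all hev, encard_left hev, encard_right hev, h, Set.encard_empty, zero_add] at h1
  rw [h1]
  generalize (bclA ω (2 * m) ∩ {b | 2 * (m:ℤ) < b}).encard = e
  rcases eq_or_ne e ⊤ with rfl | he
  · simp
  · rw [ENat.lt_add_one_iff he]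

theorem lim_EE (i j : ℕ) : ∀ᵐ ω ∂percH, Tendsto (fun n : ℕ =>
    ({m : ℕ | m < n ∧ (bclA ω (2 * m) ∩ {b | b < 2 * m}).encard = i ∧
      (bclA ω (2 * m) ∩ {b | 2 * m < b}).encard = j}.ncard : ℝ) / n) atTop
    (𝓝 (3 * ((2 * (i + j + 1)).choose (i + j + 1) : ℝ) /
      ((2 * ((i : ℝ) + j) + 1) * (2 * ((i : ℝ) + j) + 4) * 4 ^ (i + j + 1)))) := by
  filter_upwards [slln (meas_EE i j) (cl_EE i j)] with ω h
  rw [← Pool.Agent.V11321.HPL.joint_eq]
  refine h.congr fun n => ?_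
  rw [S_card]
  congr 3
  ext m
  have hev : Even (2 * (m:ℤ)) := ⟨m, by ring⟩
  simp only [Set.mem_setOf_eq, EE, encard_left hev, encard_right hev]

theorem lim_TL (k : ℕ) : ∀ᵐ ω ∂percH, Tendsto (fun n : ℕ =>
    (KK (fun C => (k : ℕ∞) < C.encard) n ω : ℝ) / n) atTop (𝓝 ((catalan k : ℝ) / (2 * 4 ^ k))) := by
  rw [← prob_TL]
  exact conv _ (meas_TL k) (cl_TL k) (TL_iff k)

theorem cat_lim : Tendsto (fun k : ℕ => (k:ℝ) ^ (3 / 2 : ℝ) * ((catalan k : ℝ) / 4 ^ k)) atTop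
    (𝓝 (1 / Real.sqrt Real.pi)) := by
  have h1 := F2a.tendsto_choose
  have h2 := h1.mul (tendsto_natCast_div_add_atTop (1:ℝ))
  rw [mul_one] at h2
  refine h2.congr' ?_
  filter_upwards [eventually_gt_atTop 0] with k hk
  have hk' : (0:ℝ) < k := by exact_mod_cast hk
  have h3 : ((2 * k).choose k : ℝ) / 4 ^ k = cb k := rfl
  have h4 : (k:ℝ) ^ (3 / 2 : ℝ) = Real.sqrt k * k := by
    rw [show (3 / 2 : ℝ) = 1 / 2 + 1 by norm_num, Real.rpow_add hk', Real.rpow_one,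
      Real.sqrt_eq_rpow]
  rw [h4]
  have h5 := cb_cat k
  rw [← h3] at h5
  have h6 : ((4:ℝ) ^ k) ≠ 0 := by positivity
  have h7 : ((k:ℝ) + 1) ≠ 0 := by positivity
  field_simp at h5 ⊢
  rw [h5]

end Pool.Agent.V11321.HPD
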