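import Pool.Agent.V11321.HPD.Loc
import Mathlib.Analysis.SpecificLimits.FloorPow

/-!
The strong law of large numbers for the functionals of the clusters of the boundary vertices of the
half-plane.
-/

set_option autoImplicit false

namespace Pool.Agent.V11321.HPD

open MeasureTheory Filter Topology H731B
open Pool.Agent.V11321.HPL (Om sh eqv_st st)

/-- the indicator at the vertex `2 i` -/
noncomputable def X (E : Set Om) (i : ℕ) (ω : Om) : ℝ :=
  (sh (2 * (i:ℤ)) ⁻¹' E).indicator (fun _ => (1:ℝ)) ω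

/-- the number of the vertices `(2 i, 0)`, `i < n`, with the property -/
noncomputable def S (E : Set Om) (n : ℕ) (ω : Om) : ℝ := ∑ i ∈ Finset.range n, X E i ω

theorem S_mono (E : Set Om) (ω : Om) : Monotone (fun n => S E n ω) := by
  refine monotone_nat_of_le_succ fun n => ?_
  simp only [S]
  rw [Finset.sum_range_succ]
  have : 0 ≤ X E n ω := Set.indicator_nonneg (fun _ _ => zero_le_one) _
  linarith

theorem close_row (n k i : ℕ) : ∑ j ∈ Finset.range n,
    (if |(i:ℤ) - j| ≤ k then (1:ℝ) else 0) ≤ 2 * k + 1 := by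
  rw [Finset.sum_boole]
  have h1 : ((Finset.range n).filter (fun j : ℕ => |(i:ℤ) - j| ≤ k)) ⊆ Finset.Icc (i - k) (i + k) := by
    intro j hj
    rw [Finset.mem_filter, abs_le] at hj
    rw [Finset.mem_Icc]
    omega
  have h2 := Finset.card_le_card h1
  rw [Nat.card_Icc] at h2
  have h3 : ((Finset.range n).filter (fun j : ℕ => |(i:ℤ) - j| ≤ k)).card ≤ 2 * k + 1 := by omega
  exact_mod_cast h3

theorem X_meas {E : Set Om} (hEm : MeasurableSet E) (i : ℕ) : Measurable (X E i) :=
  measurable_const.indicator (Pool.Agent.V11321.HPL.meas_sh _ hEm)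

theorem X_int {E : Set Om} (hEm : MeasurableSet E) (i : ℕ) : ∫ ω, X E i ω ∂percH = percH.real E := by
  unfold X
  rw [integral_indicator_const (1:ℝ) (Pool.Agent.V11321.HPL.meas_sh _ hEm), smul_eq_mul, mul_one,
    measureReal_def, ← Measure.map_apply (Pool.Agent.V11321.HPL.meas_sh _) hEm,
    Pool.Agent.V11321.HPL.map_sh, measureReal_def]

theorem X_integrable {E : Set Om} (hEm : MeasurableSet E) (i : ℕ) : Integrable (X E i) percH :=
  (integrable_const (1:ℝ)).indicator (Pool.Agent.V11321.HPL.meas_sh _ hEm)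

theorem XX (E : Set Om) (i j : ℕ) (ω : Om) : X E i ω * X E j ω =
    (sh (2 * (i:ℤ)) ⁻¹' E ∩ sh (2 * (j:ℤ)) ⁻¹' E).indicator (fun _ => (1:ℝ)) ω := by
  unfold X
  by_cases h1 : ω ∈ sh (2 * (i:ℤ)) ⁻¹' E <;> by_cases h2 : ω ∈ sh (2 * (j:ℤ)) ⁻¹' E <;>
    simp [h1, h2]

theorem XX_int {E : Set Om} (hEm : MeasurableSet E) (i j : ℕ) :
    ∫ ω, X E i ω * X E j ω ∂percH =
      percH.real (sh (2 * (i:ℤ)) ⁻¹' E ∩ sh (2 * (j:ℤ)) ⁻¹' E) := by
  simp_rw [XX]
  rw [integral_indicator_const (1:ℝ) ((Pool.Agent.V11321.HPL.meas_sh _ hEm).inter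
    (Pool.Agent.V11321.HPL.meas_sh _ hEm)), smul_eq_mul, mul_one]

theorem XX_integrable {E : Set Om} (hEm : MeasurableSet E) (i j : ℕ) :
    Integrable (fun ω => X E i ω * X E j ω) percH := by
  simp_rw [XX]
  exact (integrable_const (1:ℝ)).indicator ((Pool.Agent.V11321.HPL.meas_sh _ hEm).inter
    (Pool.Agent.V11321.HPL.meas_sh _ hEm))

/-- centred -/
noncomputable def Y (E : Set Om) (i : ℕ) (ω : Om) : ℝ := X E i ω - percH.real E

theorem YY_eq (E : Set Om) (i j : ℕ) : (fun ω => Y E i ω * Y E j ω) = fun ω =>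
    X E i ω * X E j ω - percH.real E * X E i ω - percH.real E * X E j ω + percH.real E ^ 2 := by
  funext ω
  unfold Y
  ring

theorem YY_integrable {E : Set Om} (hEm : MeasurableSet E) (i j : ℕ) :
    Integrable (fun ω => Y E i ω * Y E j ω) percH := by
  rw [YY_eq]
  exact (((XX_integrable hEm i j).sub ((X_integrable hEm i).const_mul _)).sub
    ((X_integrable hEm j).const_mul _)).add (integrable_const _)

theorem YY_int {E : Set Om} (hEm : MeasurableSet E) (i j : ℕ) :
    ∫ ω, Y E i ω * Y E j ω ∂percH =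
      percH.real (sh (2 * (i:ℤ)) ⁻¹' E ∩ sh (2 * (j:ℤ)) ⁻¹' E) - percH.real E ^ 2 := by
  have i1 : Integrable (fun ω => percH.real E * X E i ω) percH := (X_integrable hEm i).const_mul _
  have i2 : Integrable (fun ω => percH.real E * X E j ω) percH := (X_integrable hEm j).const_mul _
  have i3 : Integrable (fun ω => X E i ω * X E j ω - percH.real E * X E i ω) percH :=
    (XX_integrable hEm i j).sub i1
  have i4 : Integrable (fun ω => X E i ω * X E j ω - percH.real E * X E i ω -
    percH.real E * X E j ω) percH := i3.sub i2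
  rw [YY_eq, integral_add i4 (integrable_const _), integral_sub i3 i2,
    integral_sub (XX_integrable hEm i j) i1, XX_int hEm, integral_const_mul, integral_const_mul,
    X_int hEm, X_int hEm, integral_const, probReal_univ, one_smul]
  ring

theorem YY_le {E : Set Om} (hEm : MeasurableSet E) (hE : ClEv E) (k i j : ℕ) :
    ∫ ω, Y E i ω * Y E j ω ∂percH ≤
      (if |(i:ℤ) - j| ≤ k then (1:ℝ) else 0) + 2 * percH.real (esc k) := by
  rw [YY_int hEm]
  have h0 : 0 ≤ percH.real (esc k) := measureReal_nonneg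
  split_ifs with h
  · have h1 : percH.real (sh (2 * (i:ℤ)) ⁻¹' E ∩ sh (2 * (j:ℤ)) ⁻¹' E) ≤ 1 := measureReal_le_one
    have h2 : 0 ≤ percH.real E ^ 2 := sq_nonneg _
    linarith
  · rw [zero_add]
    refine cov hEm hE k _ _ ?_
    rw [← mul_sub, abs_mul]
    norm_num
    linarith [not_le.1 h]

/-- the second moment -/
theorem second {E : Set Om} (hEm : MeasurableSet E) (hE : ClEv E) (n k : ℕ) :
    ∫ ω, (S E n ω - n * percH.real E) ^ 2 ∂percH ≤
      n * (2 * k + 1) + n ^ 2 * (2 * percH.real (esc k)) := by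
  have e : ∀ ω, (S E n ω - n * percH.real E) ^ 2 =
      ∑ i ∈ Finset.range n, ∑ j ∈ Finset.range n, Y E i ω * Y E j ω := by
    intro ω
    have : S E n ω - n * percH.real E = ∑ i ∈ Finset.range n, Y E i ω := by
      unfold S Y
      rw [Finset.sum_sub_distrib, Finset.sum_const, Finset.card_range, nsmul_eq_mul]
    rw [this, sq, Finset.sum_mul_sum]
  simp_rw [e]
  rw [integral_finset_sum _ fun i _ => integrable_finset_sum _ fun j _ => YY_integrable hEm i j]
  have h1 : ∀ i ∈ Finset.range n, ∫ ω, ∑ j ∈ Finset.range n, Y E i ω * Y E j ω ∂percH ≤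
      (2 * k + 1) + n * (2 * percH.real (esc k)) := by
    intro i _
    rw [integral_finset_sum _ fun j _ => YY_integrable hEm i j]
    refine (Finset.sum_le_sum fun j _ => YY_le hEm hE k i j).trans ?_
    rw [Finset.sum_add_distrib, Finset.sum_const, Finset.card_range, nsmul_eq_mul]
    exact add_le_add (close_row n k i) le_rfl
  refine (Finset.sum_le_sum h1).trans (le_of_eq ?_)
  rw [Finset.sum_const, Finset.card_range, nsmul_eq_mul]
  ring

theorem S_meas {E : Set Om} (hEm : MeasurableSet E) (n : ℕ) : Measurable (S E n) :=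
  Finset.measurable_fun_sum _ fun i _ => X_meas hEm i

/-- the second moment of the average -/
theorem second' {E : Set Om} (hEm : MeasurableSet E) (hE : ClEv E) (n k : ℕ) (hn : 0 < n) :
    ∫ ω, (S E n ω / n - percH.real E) ^ 2 ∂percH ≤
      (2 * k + 1) / n + 2 * percH.real (esc k) := by
  have hn' : (0:ℝ) < n := by exact_mod_cast hn
  have e : ∀ ω, (S E n ω / n - percH.real E) ^ 2 = (S E n ω - n * percH.real E) ^ 2 / (n:ℝ) ^ 2 := by
    intro ω
    field_simp
  simp_rw [e]
  rw [integral_div, div_le_iff₀ (by positivity)]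
  refine (second hEm hE n k).trans (le_of_eq ?_)
  field_simp

theorem avg_integrable {E : Set Om} (hEm : MeasurableSet E) (n : ℕ) :
    Integrable (fun ω => (S E n ω / n - percH.real E) ^ 2) percH := by
  have hb : ∀ ω, |S E n ω / n - percH.real E| ≤ 2 := by
    intro ω
    have h1 : 0 ≤ S E n ω := Finset.sum_nonneg fun i _ =>
      Set.indicator_nonneg (fun _ _ => zero_le_one) _
    have h2 : S E n ω ≤ n := by
      have : ∀ i ∈ Finset.range n, X E i ω ≤ 1 := fun i _ =>
        Set.indicator_le_self' (f := fun _ => (1:ℝ)) (fun _ _ => zero_le_one) ω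
      refine (Finset.sum_le_sum this).trans (le_of_eq ?_)
      simp
    have h3 : S E n ω / n ≤ 1 := div_le_one_of_le₀ h2 (Nat.cast_nonneg _)
    have h4 : 0 ≤ S E n ω / n := by positivity
    have h5 : 0 ≤ percH.real E := measureReal_nonneg
    have h6 : percH.real E ≤ 1 := measureReal_le_one
    rw [abs_le]
    constructor <;> linarith
  refine Integrable.of_bound (C := 4) ?_ (ae_of_all _ fun ω => ?_)
  · exact ((((S_meas hEm n).div_const _).sub_const _).pow_const 2).aestronglyMeasurable
  · rw [Real.norm_eq_abs, abs_pow]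
    have := hb ω
    have h0 := abs_nonneg (S E n ω / n - percH.real E)
    nlinarith

end Pool.Agent.V11321.HPD
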