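import Pool.Agent.V11321.HPL.Law
import Pool.Agent.V11321.BP.Indep

/-!
Locality of the cluster of the origin of the half-plane, and decay of correlations of the
functionals of the clusters of distant boundary vertices.
-/

set_option autoImplicit false

namespace Pool.Agent.V11321.HPD

open MeasureTheory Filter Topology H731B
open Pool.Agent.V11321.HPL (Om sh eqv_st st)

/-- the cluster of the origin -/
def Cl (ω : Om) : Set (ℤ × ℕ) := {p | Relation.EqvGen (OpenAdjH ω) (0, 0) p}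

/-- the window -/
def Win (R : ℕ) : Set (ℤ × ℕ) := {p | |p.1| ≤ R ∧ p.2 ≤ R}

theorem in_win {ω : Om} {R : ℕ} (h : ω ∉ esc R) {p : ℤ × ℕ} (hp : p ∈ Cl ω) :
    |p.1| < R ∧ p.2 < R := by
  by_contra hc
  apply h
  refine ⟨p, ?_, hp⟩
  by_contra hd
  push Not at hd
  exact hc ⟨hd.1, hd.2⟩

theorem cell_win {ω : Om} {R : ℕ} {a : ℤ} {t : ℕ} {p : ℤ × ℕ} (h : |p.1| < R ∧ p.2 < R)
    (hc : (p = (a, t) ∨ p = (a + 1, t + 1)) ∨ (p = (a + 1, t) ∨ p = (a, t + 1))) :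
    (a, t) ∈ Win R := by
  unfold Win
  simp only [Set.mem_setOf_eq]
  rw [abs_lt] at h
  rw [abs_le]
  rcases hc with (rfl | rfl) | (rfl | rfl) <;> simp only at h <;> omega

theorem Cl_local {ω ω' : Om} {R : ℕ} (h : ω ∉ esc R) (hag : ∀ p ∈ Win R, ω p = ω' p) :
    Cl ω' = Cl ω := by
  have step : ∀ p r : ℤ × ℕ, (p ∈ Cl ω ∨ r ∈ Cl ω) → (OpenAdjH ω p r ↔ OpenAdjH ω' p r) := by
    intro p r hpr
    have key : ∀ (a : ℤ) (t : ℕ), ((Even (a + t) ∧ p = (a, t) ∧ r = (a + 1, t + 1)) ∨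
      (¬ Even (a + t) ∧ p = (a + 1, t) ∧ r = (a, t + 1))) → ω (a, t) = ω' (a, t) := by
      intro a t hc
      apply hag
      rcases hpr with hp | hp
      · refine cell_win (ω := ω) (in_win h hp) ?_
        rcases hc with ⟨_, h1, _⟩ | ⟨_, h1, _⟩
        · exact Or.inl (Or.inl h1)
        · exact Or.inr (Or.inl h1)
      · refine cell_win (ω := ω) (in_win h hp) ?_
        rcases hc with ⟨_, _, h1⟩ | ⟨_, _, h1⟩
        · exact Or.inl (Or.inr h1)
        · exact Or.inr (Or.inr h1)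
    constructor
    · rintro ⟨a, t, h1, h2⟩
      exact ⟨a, t, by rw [← key a t h2]; exact h1, h2⟩
    · rintro ⟨a, t, h1, h2⟩
      exact ⟨a, t, by rw [key a t h2]; exact h1, h2⟩
  ext q
  constructor
  · intro hq
    obtain ⟨m, hm⟩ := (eqv_st ω' _ _).1 hq
    induction m generalizing q with
    | zero =>
      rw [show q = (0, 0) from hm]
      exact Relation.EqvGen.refl _
    | succ m ih =>
      obtain ⟨r, hr, hadj⟩ := hm
      have hr' : r ∈ Cl ω := ih r ((eqv_st ω' _ _).2 ⟨m, hr⟩) hr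
      rcases hadj with hadj | hadj
      · exact Relation.EqvGen.trans _ _ _ hr' (Relation.EqvGen.rel _ _ ((step r q (Or.inl hr')).2 hadj))
      · exact Relation.EqvGen.trans _ _ _ hr'
          ((Relation.EqvGen.rel _ _ ((step q r (Or.inr hr')).2 hadj)).symm)
  · intro hq
    obtain ⟨m, hm⟩ := (eqv_st ω _ _).1 hq
    induction m generalizing q with
    | zero =>
      rw [show q = (0, 0) from hm]
      exact Relation.EqvGen.refl _
    | succ m ih =>
      obtain ⟨r, hr, hadj⟩ := hm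
      have hr0 : r ∈ Cl ω := (eqv_st ω _ _).2 ⟨m, hr⟩
      have hr' : r ∈ Cl ω' := ih r hr0 hr
      rcases hadj with hadj | hadj
      · exact Relation.EqvGen.trans _ _ _ hr' (Relation.EqvGen.rel _ _ ((step r q (Or.inl hr0)).1 hadj))
      · exact Relation.EqvGen.trans _ _ _ hr'
          ((Relation.EqvGen.rel _ _ ((step q r (Or.inr hr0)).1 hadj)).symm)

/-- the event depends on the cluster of the origin only -/
def ClEv (E : Set Om) : Prop := ∀ ω ω' : Om, Cl ω = Cl ω' → (ω ∈ E ↔ ω' ∈ E)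

theorem esc_iff (R : ℕ) (ω : Om) : ω ∈ esc R ↔ ∃ p ∈ Cl ω, ((R : ℤ) ≤ |p.1| ∨ R ≤ p.2) := by
  constructor
  · rintro ⟨p, h1, h2⟩
    exact ⟨p, h2, h1⟩
  · rintro ⟨p, h1, h2⟩
    exact ⟨p, h2, h1⟩

theorem esc_anti {R R' : ℕ} (h : R ≤ R') : esc R' ⊆ esc R := by
  intro ω hω
  rw [esc_iff] at hω ⊢
  obtain ⟨p, h1, h2⟩ := hω
  refine ⟨p, h1, ?_⟩
  have h' : (R : ℤ) ≤ R' := by exact_mod_cast h
  rcases h2 with h2 | h2
  · exact Or.inl (h'.trans h2)
  · exact Or.inr (h.trans h2)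

theorem meas_esc (R : ℕ) : MeasurableSet (esc R) := by
  have : esc R = ⋃ p : ℤ × ℕ, {_ω : Om | (R : ℤ) ≤ |p.1| ∨ R ≤ p.2} ∩ ⋃ m, {ω | st ω (0, 0) m p} := by
    ext ω
    simp only [Set.mem_iUnion, Set.mem_inter_iff, Set.mem_setOf_eq]
    constructor
    · rintro ⟨p, h1, h2⟩
      exact ⟨p, h1, (eqv_st ω _ _).1 h2⟩
    · rintro ⟨p, h1, h2⟩
      exact ⟨p, h1, (eqv_st ω _ _).2 h2⟩
  rw [this]
  exact MeasurableSet.iUnion fun p => (MeasurableSet.const _).inter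
    (MeasurableSet.iUnion fun m => Pool.Agent.V11321.HPL.meas_st _ _ _)

theorem dep {E : Set Om} (hE : ClEv E) (R : ℕ) :
    DependsOn (fun ω => ω ∈ E ∩ (esc R)ᶜ) (Win R) := by
  have key : ∀ ω ω' : Om, (∀ p ∈ Win R, ω p = ω' p) → ω ∈ E ∩ (esc R)ᶜ → ω' ∈ E ∩ (esc R)ᶜ := by
    rintro ω ω' hag ⟨h1, h2⟩
    have h3 := Cl_local h2 hag
    refine ⟨(hE ω ω' h3.symm).1 h1, ?_⟩
    intro h4
    apply h2
    rw [esc_iff] at h4 ⊢
    rwa [h3] at h4
  intro ω ω' hag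
  exact propext ⟨key ω ω' hag, key ω' ω fun p hp => (hag p hp).symm⟩

theorem dep_sh {E : Set Om} (hE : ClEv E) (R : ℕ) (d : ℤ) :
    DependsOn (fun ω => ω ∈ sh d ⁻¹' (E ∩ (esc R)ᶜ)) {p | (p.1 - d, p.2) ∈ Win R} := by
  intro ω ω' hag
  refine dep hE R (x := sh d ω) (y := sh d ω') ?_
  intro p hp
  show ω (p.1 + d, p.2) = ω' (p.1 + d, p.2)
  apply hag
  show (p.1 + d - d, p.2) ∈ Win R
  rw [add_sub_cancel_right]
  exact hp

/-- independence at distance -/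
theorem indep {E : Set Om} (hEm : MeasurableSet E) (hE : ClEv E) (R : ℕ) (d e : ℤ)
    (h : 2 * (R : ℤ) < |d - e|) :
    percH (sh d ⁻¹' (E ∩ (esc R)ᶜ) ∩ sh e ⁻¹' (E ∩ (esc R)ᶜ)) =
      percH (E ∩ (esc R)ᶜ) * percH (E ∩ (esc R)ᶜ) := by
  have hm : MeasurableSet (E ∩ (esc R)ᶜ) := hEm.inter (meas_esc R).compl
  have h1 := Pool.Agent.V11321.BP.inter_of_dependsOn (E := ℤ × ℕ)
    (PMF.uniformOfFintype Bool).toMeasure
    (I := {p | (p.1 - d, p.2) ∈ Win R}) (J := {p | (p.1 - e, p.2) ∈ Win R}) ?_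
    ((Pool.Agent.V11321.HPL.meas_sh d) hm) ((Pool.Agent.V11321.HPL.meas_sh e) hm)
    (dep_sh hE R d) (dep_sh hE R e)
  · have e1 : ∀ x : ℤ, percH (sh x ⁻¹' (E ∩ (esc R)ᶜ)) = percH (E ∩ (esc R)ᶜ) := by
      intro x
      rw [← Measure.map_apply (Pool.Agent.V11321.HPL.meas_sh x) hm, Pool.Agent.V11321.HPL.map_sh]
    have h2 : Pool.Agent.V11321.BP.PB (E := ℤ × ℕ) (PMF.uniformOfFintype Bool).toMeasure = percH := rfl
    rw [h2, e1, e1] at h1
    exact h1
  · rw [Set.disjoint_left]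
    rintro p hp hq
    have h3 : |p.1 - d| ≤ R := hp.1
    have h4 : |p.1 - e| ≤ R := hq.1
    have h5 : |d - e| ≤ |p.1 - d| + |p.1 - e| := by
      have := abs_sub (p.1 - e) (p.1 - d)
      have e2 : (p.1 - e) - (p.1 - d) = d - e := by ring
      rw [e2] at this
      linarith
    linarith

/-- decay of correlations -/
theorem cov {E : Set Om} (hEm : MeasurableSet E) (hE : ClEv E) (R : ℕ) (d e : ℤ)
    (h : 2 * (R : ℤ) < |d - e|) :
    percH.real (sh d ⁻¹' E ∩ sh e ⁻¹' E) - percH.real E ^ 2 ≤ 2 * percH.real (esc R) := by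
  have hm : MeasurableSet (E ∩ (esc R)ᶜ) := hEm.inter (meas_esc R).compl
  have hsh : ∀ (x : ℤ) {S : Set Om}, MeasurableSet S → percH.real (sh x ⁻¹' S) = percH.real S := by
    intro x S hS
    rw [measureReal_def, ← Measure.map_apply (Pool.Agent.V11321.HPL.meas_sh x) hS,
      Pool.Agent.V11321.HPL.map_sh, measureReal_def]
  have h1 : percH.real (sh d ⁻¹' (E ∩ (esc R)ᶜ) ∩ sh e ⁻¹' (E ∩ (esc R)ᶜ)) =
      percH.real (E ∩ (esc R)ᶜ) ^ 2 := by
    rw [measureReal_def, indep hEm hE R d e h, ENNReal.toReal_mul, measureReal_def, sq]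
  have h2 : percH.real (sh d ⁻¹' E ∩ sh e ⁻¹' E) ≤
      percH.real (sh d ⁻¹' (E ∩ (esc R)ᶜ) ∩ sh e ⁻¹' (E ∩ (esc R)ᶜ)) +
        (percH.real (sh d ⁻¹' (esc R)) + percH.real (sh e ⁻¹' (esc R))) := by
    refine le_trans (measureReal_mono ?_ (measure_ne_top _ _)) ((measureReal_union_le _ _).trans
      (add_le_add le_rfl (measureReal_union_le _ _)))
    rintro ω ⟨h3, h4⟩
    by_cases h5 : sh d ω ∈ esc R
    · exact Or.inr (Or.inl h5)
    · by_cases h6 : sh e ω ∈ esc R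
      · exact Or.inr (Or.inr h6)
      · exact Or.inl ⟨⟨h3, h5⟩, ⟨h4, h6⟩⟩
  rw [h1, hsh d (meas_esc R), hsh e (meas_esc R)] at h2
  have h3 : percH.real (E ∩ (esc R)ᶜ) ≤ percH.real E :=
    measureReal_mono Set.inter_subset_left (measure_ne_top _ _)
  have h4 : 0 ≤ percH.real (E ∩ (esc R)ᶜ) := measureReal_nonneg
  nlinarith

/-- polynomial decay -/
theorem esc_poly : ∃ δ : ℝ, 0 < δ ∧ ∀ R : ℕ, percH.real (esc R) ≤ (((R : ℝ) + 1) / 54) ^ (-δ) := by
  have hq0 : (0:ℝ) < 1 - (1/2 : ℝ)^188 := by norm_num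
  have hq1 : 1 - (1/2 : ℝ)^188 < 1 := by norm_num
  obtain ⟨q, hq⟩ : ∃ q : ℝ, q = 1 - (1/2 : ℝ)^188 := ⟨_, rfl⟩
  rw [← hq] at hq0 hq1
  have hl : Real.log q < 0 := Real.log_neg hq0 hq1
  have h3 : 0 < Real.log 3 := Real.log_pos (by norm_num)
  refine ⟨-Real.log q / Real.log 3, div_pos (by linarith) h3, fun R => ?_⟩
  have hδ : 0 < -Real.log q / Real.log 3 := div_pos (by linarith) h3
  by_cases hR : R < 54
  · refine measureReal_le_one.trans ?_
    have h1 : ((R : ℝ) + 1) / 54 ≤ 1 := by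
      rw [div_le_one (by norm_num)]
      have : (R : ℝ) + 1 ≤ 54 := by exact_mod_cast hR
      exact this
    exact Real.one_le_rpow_of_pos_of_le_one_of_nonpos (by positivity) h1 (by linarith)
  · have hR' : 54 ≤ R := by omega
    have h1 : 3 ^ (Nat.log 3 (R / 18)) ≤ R / 18 := Nat.pow_log_le_self 3 (by omega)
    have h2 : R / 18 < 3 ^ (Nat.log 3 (R / 18) + 1) := Nat.lt_pow_succ_log_self (by norm_num) _
    obtain ⟨K, hK⟩ : ∃ K, K = Nat.log 3 (R / 18) := ⟨_, rfl⟩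
    rw [← hK] at h1 h2
    have h4 : 2 * (H974.RR K) ≤ R := by
      unfold H974.RR
      omega
    have h5 := (HP3.esc_le h4).trans (H974.arm_decay K)
    rw [← hq] at h5
    refine h5.trans ?_
    have h6 : q ^ K = ((3:ℝ) ^ K) ^ (-(-Real.log q / Real.log 3)) := by
      rw [← Real.rpow_natCast, ← Real.rpow_natCast, ← Real.rpow_mul (by norm_num)]
      rw [Real.rpow_def_of_pos hq0, Real.rpow_def_of_pos (by norm_num : (0:ℝ) < 3)]
      congr 1
      field_simp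
    rw [h6]
    refine Real.rpow_le_rpow_of_nonpos (by positivity) ?_ (by linarith)
    rw [div_le_iff₀ (by norm_num)]
    have h7 : R + 1 ≤ 3 ^ K * 54 := by
      rw [pow_succ] at h2
      omega
    exact_mod_cast h7

end Pool.Agent.V11321.HPD
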